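import Pool.Agent.TH235.UB.Main
import Pool.Agent.TH930.PS.Three
import Pool.Agent.TH930.SP.Loc

/-! The `3x+k` maps: power saving beyond the entropy exponent, uniformly in `k`. -/

set_option autoImplicit false

namespace Pool.Agent.TH235.UB

open Finset Filter Topology Pool.Agent.H499R2.ND Pool.Agent.H828R3.GP
open Pool.Agent.H319R3.GC (Adm Tm PP)
open Pool.Agent.H319R2 (beta beta_lt beta_gt)
open Pool.Agent.TH930.EBQ (ones wd kap Hh)
open Pool.Agent.TH930.PS (Mu3 beta_eq exists_eta beta_pos)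
open Pool.Agent.W36 (kr)

theorem kr_r3 (d : ℤ) : kr d (r3 1) = r3 d := by
  funext i
  unfold kr r3
  split_ifs <;> simp

theorem PP_m3 : PP 2 m3 = 3 := by
  unfold PP m3
  simp [Finset.prod_range_succ]

/-- the large multipliers along an orbit that stays above `|k| 2^(i-1)` -/
theorem stay_multV {k : ℤ} (hk : Odd k) {i n : ℕ} (hi : 1 ≤ i)
    (hn : 4 * (n : ℝ) ≤ (2 : ℝ) ^ (i - 1)) {y : ℤ} (hy : |(y : ℝ)| ≤ |(k : ℝ)| * (2 : ℝ) ^ i)
    (hst : ∀ j ≤ n, |(k : ℝ)| * (2 : ℝ) ^ (i - 1) ≤ |(((Td k)^[j] y : ℤ) : ℝ)|) :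
    2 ^ n ≤ 4 * 3 ^ ones (wd k n y) := by
  have hk0 : k ≠ 0 := by rintro rfl; simp at hk
  have hkp : 0 < |(k : ℝ)| := abs_pos.2 (by exact_mod_cast hk0)
  have hR : ∀ i < 2, |(r3 k i : ℝ)| ≤ |(k : ℝ)| := by
    intro i hi
    interval_cases i
    · simp [r3]
    · simp [r3]
  have hY0 : (0 : ℝ) < 2 ^ (i - 1) := by positivity
  have hY : (0 : ℝ) < |(k : ℝ)| * 2 ^ (i - 1) := by positivity
  have hnn : (0 : ℝ) ≤ n := Nat.cast_nonneg n
  have h6 := approx (adm3 hk) hR hkp.le hY n (x := y) (fun j hj => by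
    rw [Tm3]; exact hst j hj.le) (by nlinarith)
  rw [Tm3, Mu3] at h6
  push_cast at h6
  set z : ℝ := (((Td k)^[n] y : ℤ) : ℝ) with hz
  set M : ℝ := (3 : ℝ) ^ ones (wd k n y) with hM
  have hM0 : 0 < M := by positivity
  have hD : (0 : ℝ) < 2 ^ n := by positivity
  have h8 : n * (2 * |(k : ℝ)| / (|(k : ℝ)| * (2 : ℝ) ^ (i - 1))) ≤ 1 / 2 := by
    rw [mul_div_assoc', div_le_iff₀ hY]
    have := mul_le_mul_of_nonneg_left hn hkp.le
    nlinarith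
  have h9 : |M * y - (2 : ℝ) ^ n * z| ≤ 1 / 2 * ((2 : ℝ) ^ n * |z|) :=
    h6.trans (mul_le_mul_of_nonneg_right h8 (by positivity))
  have h10 : (2 : ℝ) ^ n * |z| ≤ 2 * (M * |(y : ℝ)|) := by
    have e1 : (2 : ℝ) ^ n * |z| = |(2 : ℝ) ^ n * z| := by rw [abs_mul, abs_of_pos hD]
    have e2 := abs_sub_abs_le_abs_sub ((2 : ℝ) ^ n * z) (M * y)
    rw [abs_sub_comm, ← e1, abs_mul M, abs_of_pos hM0] at e2
    linarith
  have h11 : |(k : ℝ)| * (2 : ℝ) ^ (i - 1) ≤ |z| := hst n le_rfl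
  have e : (2 : ℝ) ^ i = 2 * (2 : ℝ) ^ (i - 1) := by rw [← pow_succ']; congr 1; omega
  have h12 : |(k : ℝ)| * (2 : ℝ) ^ (i - 1) * (2 : ℝ) ^ n ≤ |(k : ℝ)| * (2 : ℝ) ^ (i - 1) * (4 * M) := by
    calc |(k : ℝ)| * (2 : ℝ) ^ (i - 1) * (2 : ℝ) ^ n = (2 : ℝ) ^ n * (|(k : ℝ)| * (2 : ℝ) ^ (i - 1)) := by
          ring
      _ ≤ (2 : ℝ) ^ n * |z| := mul_le_mul_of_nonneg_left h11 hD.le
      _ ≤ 2 * (M * |(y : ℝ)|) := h10
      _ ≤ 2 * (M * (|(k : ℝ)| * (2 : ℝ) ^ i)) := by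
          have := mul_le_mul_of_nonneg_left hy hM0.le
          linarith
      _ = _ := by rw [e]; ring
  have h13 : (2 : ℝ) ^ n ≤ 4 * M := le_of_mul_le_mul_left h12 hY
  rw [hM] at h13
  exact_mod_cast h13

/-- THE BOUND FOR THE STUCK SETS, uniform in `k` -/
theorem card_SjV : ∃ τ η A : ℝ, 0 < τ ∧ τ ≤ 1 ∧ 0 ≤ η ∧ η < beta ∧ 0 ≤ A ∧ ∀ k : ℤ, Odd k →
    ∀ i : ℕ, 1 ≤ i → ((SjU k 2 m3 (r3 1) τ i).card : ℝ) ≤ |(k : ℝ)| * (A * (((2 : ℕ) : ℝ) ^ η) ^ i) := by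
  classical
  obtain ⟨τ, c, C, μ, hτ0, hτ1, hc, hC, hμ0, hμ1, hmain⟩ := Pool.Agent.TH930.SP.count_k
  obtain ⟨η, hη0, hη1, hη⟩ := exists_eta hc
  have t1 : Tendsto (fun i : ℕ => μ * (i : ℝ)) atTop atTop :=
    Tendsto.const_mul_atTop hμ0 tendsto_natCast_atTop_atTop
  have t2 : Tendsto (fun i : ℕ => Real.exp (μ * (i : ℝ))) atTop atTop :=
    Real.tendsto_exp_atTop.comp t1
  have e1 : ∀ᶠ i : ℕ in atTop, (4 : ℝ) ≤ Real.exp (μ * (i : ℝ)) :=
    t2.eventually_ge_atTop _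
  have e2 : ∀ᶠ i : ℕ in atTop, 16 * (i : ℝ) ≤ (2 : ℝ) ^ i := by
    have h1 := tendsto_pow_const_div_const_pow_of_one_lt 1 (show (1 : ℝ) < 2 by norm_num)
    have h2 := h1.eventually_le_const (show (0 : ℝ) < 1 / 16 by positivity)
    filter_upwards [h2] with i hi
    rw [div_le_div_iff₀ (by positivity) (by positivity), pow_one] at hi
    linarith
  obtain ⟨i0, hi0⟩ := eventually_atTop.1 (e1.and e2)
  have h2η : (1 : ℝ) ≤ 2 ^ η := Real.one_le_rpow (by norm_num) hη0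
  refine ⟨τ, η, max C (3 * 2 ^ i0), hτ0, by linarith, hη0, hη1, le_max_of_le_left hC.le, ?_⟩
  intro k hk i hi
  have hk0 : k ≠ 0 := by rintro rfl; simp at hk
  have hkp : 0 < |(k : ℝ)| := abs_pos.2 (by exact_mod_cast hk0)
  have hk1 : 1 ≤ |k| := Int.one_le_abs hk0
  push_cast
  rcases lt_or_ge i i0 with hsm | hbig
  · have h1 : ((SjU k 2 m3 (r3 1) τ i).card : ℤ) ≤ |k| * (3 * 2 ^ i) := by
      have h2 : SjU k 2 m3 (r3 1) τ i ⊆ Icc (-(|k| * (((2 : ℕ) : ℤ)) ^ i)) (|k| * (((2 : ℕ) : ℤ)) ^ i) := by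
        unfold SjU
        exact filter_subset _ _
      have h3 := card_le_card h2
      rw [Int.card_Icc] at h3
      push_cast at h3
      have : (1 : ℤ) ≤ 2 ^ i := one_le_pow₀ (by norm_num)
      have h6 : (1 : ℤ) ≤ |k| * 2 ^ i := by nlinarith
      have h7 : (((|k| * 2 ^ i + 1 - -(|k| * 2 ^ i)).toNat : ℕ) : ℤ) = |k| * 2 ^ i + 1 - -(|k| * 2 ^ i) :=
        Int.toNat_of_nonneg (by omega)
      have h8 : ((SjU k 2 m3 (r3 1) τ i).card : ℤ) ≤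
          (((|k| * 2 ^ i + 1 - -(|k| * 2 ^ i)).toNat : ℕ) : ℤ) := by exact_mod_cast h3
      rw [h7] at h8
      linarith
    have h2 : (3 : ℝ) * 2 ^ i ≤ 3 * 2 ^ i0 :=
      mul_le_mul_of_nonneg_left (pow_le_pow_right₀ (by norm_num) hsm.le) (by norm_num)
    have h3 : ((SjU k 2 m3 (r3 1) τ i).card : ℝ) ≤ |(k : ℝ)| * (3 * 2 ^ i) := by exact_mod_cast h1
    refine h3.trans (mul_le_mul_of_nonneg_left (h2.trans ?_) hkp.le)
    calc (3 : ℝ) * 2 ^ i0 = 3 * 2 ^ i0 * 1 := by rw [mul_one]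
      _ ≤ max C (3 * 2 ^ i0) * ((2 : ℝ) ^ η) ^ i :=
          mul_le_mul (le_max_right _ _) (one_le_pow₀ h2η) (by norm_num)
            (le_max_of_le_left hC.le)
  · obtain ⟨h1, h2⟩ := hi0 i hbig
    have h3 := hmain k hk i 4 (by norm_num) (by push_cast; exact h1) 0
      (SjU k 2 m3 (r3 1) τ i) (by
        intro x hx
        unfold SjU at hx
        rw [mem_filter, mem_Icc] at hx
        push_cast at hx
        obtain ⟨⟨hx1, hx2⟩, hx3, hx4⟩ := hx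
        refine ⟨by rw [sub_zero]; exact abs_le.2 ⟨hx1, hx2⟩, fun j hj => ?_⟩
        rw [kr_r3, Tm3] at hx4
        apply stay_multV hk hi _ hx3.le (fun n hn => hx4 n (hn.trans hj))
        have hj2 : (j : ℝ) ≤ 2 * i := by
          have a1 : ⌊τ * (i : ℝ)⌋₊ ≤ i := by
            apply Nat.floor_le_of_le
            calc τ * (i : ℝ) ≤ 1 * i := mul_le_mul_of_nonneg_right (by linarith) (Nat.cast_nonneg i)
              _ = i := one_mul _
          have a2 : j ≤ 2 * i := by omega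
          exact_mod_cast a2
        have e : (2 : ℝ) ^ i = 2 * (2 : ℝ) ^ (i - 1) := by rw [← pow_succ']; congr 1; omega
        rw [e] at h2
        linarith)
    refine h3.trans (mul_le_mul_of_nonneg_left ?_ hkp.le)
    exact mul_le_mul (le_max_left _ _) (hη i) (Real.exp_pos _).le (le_max_of_le_left hC.le)

/-- UNIFORM POWER SAVING BEYOND THE ENTROPY EXPONENT, uniformly in `k` -/
theorem threeV : ∃ c : ℝ, 1 - beta < c ∧ c < 1 ∧ ∃ C : ℝ, 0 < C ∧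
    ∀ k : ℤ, Odd k → ¬ (3 : ℤ) ∣ k → ∀ X y : ℝ, 1 ≤ X → 0 < y →
    ({x : ℤ | |(x : ℝ)| ≤ X ∧ ∀ n : ℕ, y < |(((Td k)^[n] x : ℤ) : ℝ)|}.ncard : ℝ) ≤
      C * X * (|(k : ℝ)| / y) ^ c := by
  obtain ⟨τ, η, A, hτ0, hτ1, hη0, hη1, hA, hSt⟩ := card_SjV
  have hb := beta_lt
  have hb0 := beta_pos
  obtain ⟨C, hC, h⟩ := power_savingV (adm3 (k := 1) odd_one) (τ := τ) (A := A) (η := η) hA hτ1 hη0
    (by linarith) (c := (1 - beta + (1 - η)) / 2) (by linarith) (by linarith)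
  refine ⟨(1 - beta + (1 - η)) / 2, by linarith, by linarith, C, hC, fun k hk hk3 X y hX hy => ?_⟩
  have hcop : IsCoprime k (PP 2 m3 : ℤ) := by
    rw [PP_m3]
    have h3 : Prime (3 : ℤ) := Int.prime_three
    exact_mod_cast ((Prime.coprime_iff_not_dvd h3).2 hk3).symm
  have h1 := h k (by rintro rfl; simp at hk) hcop (by rw [kr_r3]; exact adm3 hk) (hSt k hk) X y hX hy
  rw [kr_r3, Tm3] at h1
  exact h1

end Pool.Agent.TH235.UB
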