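import Pool.Agent.TH235.UB.Pass

/-! UNIFORM POWER SAVING for the family of the maps with offsets `κ r` from a bound, uniform in `κ`, for
the points that stay above a level for `(1+τ)i` steps. -/

set_option autoImplicit false

namespace Pool.Agent.TH235.UB

open Finset Pool.Agent.H319R3.GC Pool.Agent.H828R3.GP Pool.Agent.W36

variable {d : ℕ} {m r : ℕ → ℤ}

/-- the constant -/
noncomputable def CstV (d : ℕ) (R A : ℝ) : ℝ :=
  A * d * d * (5 * 51 ^ (d + 1) * (400 * R * d + 1))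

/-- the density bound at the starting scales -/
theorem pb_baseV {κ : ℤ} (hκ0 : κ ≠ 0) (hκc : Nat.Coprime κ.natAbs (PP d m)) (h : Adm d m (kr κ r))
    {R : ℝ} (hR : ∀ i < d, |(r i : ℝ)| ≤ R) (hR0 : 0 ≤ R) {τ A η : ℝ}
    (hA : 0 ≤ A) (hτ : τ ≤ 1) (hη0 : 0 ≤ η) (hη1 : η < 1)
    (hSt : ∀ i : ℕ, 1 ≤ i → ((SjU κ d m r τ i).card : ℝ) ≤ |(κ : ℝ)| * (A * ((d : ℝ) ^ η) ^ i))
    {y t₁ a : ℝ} (hy : 1 ≤ y) (ht₁ : 1 ≤ t₁) (ha : 0 < a) (hya : y ≤ 2 * a) (hat : Real.log a ≤ t₁)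
    (hyt : 200 * t₁ ^ 2 * R * d ≤ y) {Q : ℕ} (hQ0 : 0 < Q) (hQκ : Nat.Coprime κ.natAbs Q)
    (hQ : (Q : ℝ) ≤ (2 * a / y) ^ (1 - η)) :
    PB (Sy d m (kr κ r) (|(κ : ℝ)| * y)) (|(κ : ℝ)| * a) Q
      (CstV d R A * t₁ ^ (2 * d + 5) * y ^ (-(1 - η))) := by
  classical
  have hκp : 0 < |(κ : ℝ)| := abs_pos.2 (by exact_mod_cast hκ0)
  have hy0 : 0 < y := by linarith
  have hd2 := h.two_le
  have hdR : (2 : ℝ) ≤ d := by exact_mod_cast hd2
  have hd0 : (0 : ℝ) < d := by linarith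
  have hQR : (0 : ℝ) < Q := by exact_mod_cast hQ0
  have hl2 := Real.log_two_gt_d9
  have hl2' := Real.log_two_lt_d9
  have hη' : 0 < 1 - η := by linarith
  intro c
  obtain ⟨l, hl1, hl3⟩ := exists_pow hd2 hy
  obtain ⟨k0, hk1, hk3⟩ := exists_pow hd2 (y := 2 * a) (by linarith)
  set k := k0 + 1 with hk
  have hkA : (d : ℝ) ^ k ≤ 2 * a * d := by rw [hk, pow_succ]; nlinarith
  have hkA2 : 2 * a < (d : ℝ) ^ k := by rw [hk, pow_succ]; linarith
  have hlk : l < k := by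
    have : (d : ℝ) ^ l < (d : ℝ) ^ k := by linarith
    exact (pow_lt_pow_iff_right₀ (by linarith)).1 this
  have hlogd : 1 / 2 ≤ Real.log d := by
    have := Real.log_le_log (by norm_num) hdR
    linarith
  have hkt : (k : ℝ) ≤ 5 * t₁ := by
    have h1 : (k0 : ℝ) * Real.log d ≤ Real.log (2 * a) := by
      rw [← Real.log_pow]
      exact Real.log_le_log (by positivity) hk1
    rw [Real.log_mul (by norm_num) ha.ne'] at h1
    have h2 : (k0 : ℝ) * (1 / 2) ≤ k0 * Real.log d := mul_le_mul_of_nonneg_left hlogd (Nat.cast_nonneg _)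
    rw [hk]; push_cast
    linarith
  have hkR : (1 : ℝ) ≤ k := by
    have : 1 ≤ k := by omega
    exact_mod_cast this
  have hk2 : (k : ℝ) * k ≤ 25 * t₁ ^ 2 := by nlinarith
  -- finset of the window
  set S0 := Sy d m (kr κ r) (|(κ : ℝ)| * y) with hS0
  set W : Set ℤ := {x : ℤ | x ∈ S0 ∧ |(κ : ℝ)| * a ≤ |(x : ℝ)| ∧ |(x : ℝ)| < 2 * (|(κ : ℝ)| * a) ∧
    (Q : ℤ) ∣ x - c} with hW
  have hWfin : W.Finite := by
    apply (I1_window_finite S0 (2 * (|(κ : ℝ)| * a))).subset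
    rintro x ⟨h1, -, h3, -⟩
    exact ⟨h1, h3⟩
  have hwc : wc S0 (|(κ : ℝ)| * a) Q c = (hWfin.toFinset.card : ℝ) := by
    unfold wc
    rw [← Set.ncard_eq_toFinset_card W hWfin]
  rw [hwc]
  set K : ℝ := (d : ℝ) ^ η with hK
  have hK1 : 1 ≤ K := Real.one_le_rpow (by linarith) hη0
  have hKd : K < d := by
    calc K = (d : ℝ) ^ η := rfl
      _ < (d : ℝ) ^ (1 : ℝ) := Real.rpow_lt_rpow_of_exponent_lt (by linarith) hη1
      _ = d := Real.rpow_one _
  have hκ : K / d = (d : ℝ) ^ (-(1 - η)) := by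
    rw [hK, show -(1 - η) = η - 1 by ring, Real.rpow_sub hd0, Real.rpow_one]
  have hκ0' : 0 < K / d := by positivity
  have hstay := card_stayV hκ0 hκc h hR hR0 hτ hA hK1 hKd hSt (k := k) (l := l) (q := Q) hQ0 hQκ c
    (by omega) hlk.le
    (by
      have h1 : 4 * (2 * ((k : ℝ) * k)) * R * d ≤ (d : ℝ) ^ l * d := by
        have h2 : 4 * (2 * ((k : ℝ) * k)) * R * d ≤ 200 * t₁ ^ 2 * R * d := by
          apply mul_le_mul_of_nonneg_right _ hd0.le
          apply mul_le_mul_of_nonneg_right _ hR0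
          linarith
        linarith
      exact le_of_mul_le_mul_right h1 hd0) hWfin.toFinset (by
      intro x hx
      rw [Set.Finite.mem_toFinset] at hx
      obtain ⟨h1, h2, h3, h4⟩ := hx
      refine ⟨?_, h4, fun n => ?_⟩
      · have := mul_lt_mul_of_pos_left hkA2 hκp
        linarith
      · have h5 := h1 n
        have h6 := mul_le_mul_of_nonneg_left hl1 hκp.le
        linarith)
  refine hstay.trans ?_
  -- `κ^k ≤ κ^l / Q`
  have hpk : ∀ n : ℕ, (K / d) ^ n = ((d : ℝ) ^ n) ^ (-(1 - η)) := by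
    intro n
    rw [hκ, ← Real.rpow_natCast, ← Real.rpow_natCast (d : ℝ) n, ← Real.rpow_mul hd0.le,
      ← Real.rpow_mul hd0.le, mul_comm]
  have hkl : (K / d) ^ k ≤ (K / d) ^ l / Q := by
    rw [le_div_iff₀ hQR]
    have h1 : (K / d) ^ k ≤ (K / d) ^ l * (2 * a / y) ^ (-(1 - η)) := by
      rw [hpk, hpk, ← Real.mul_rpow (by positivity) (by positivity)]
      apply Real.rpow_le_rpow_of_nonpos (by positivity) _ (by linarith)
      calc (d : ℝ) ^ l * (2 * a / y) ≤ y * (2 * a / y) :=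
            mul_le_mul_of_nonneg_right hl1 (by positivity)
        _ = 2 * a := by field_simp
        _ ≤ _ := hkA2.le
    have h2 : (2 * a / y) ^ (-(1 - η)) * (2 * a / y) ^ (1 - η) = 1 := by
      rw [← Real.rpow_add (by positivity), neg_add_cancel, Real.rpow_zero]
    calc (K / d) ^ k * Q ≤ ((K / d) ^ l * (2 * a / y) ^ (-(1 - η))) * (2 * a / y) ^ (1 - η) :=
          mul_le_mul h1 hQ hQR.le (by positivity)
      _ = (K / d) ^ l * ((2 * a / y) ^ (-(1 - η)) * (2 * a / y) ^ (1 - η)) := by ring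
      _ = _ := by rw [h2, mul_one]
  have hly : (K / d) ^ l ≤ d * y ^ (-(1 - η)) := by
    rw [hpk]
    have h1 : y / d ≤ (d : ℝ) ^ l := by rw [div_le_iff₀ hd0]; linarith
    have h2 : ((d : ℝ) ^ l) ^ (-(1 - η)) ≤ (y / d) ^ (-(1 - η)) :=
      Real.rpow_le_rpow_of_nonpos (by positivity) h1 (by linarith)
    refine h2.trans ?_
    rw [Real.div_rpow hy0.le hd0.le, div_eq_mul_inv, mul_comm]
    apply mul_le_mul_of_nonneg_right _ (Real.rpow_nonneg hy0.le _)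
    rw [← Real.rpow_neg hd0.le, neg_neg]
    calc (d : ℝ) ^ (1 - η) ≤ (d : ℝ) ^ (1 : ℝ) :=
          Real.rpow_le_rpow_of_exponent_le (by linarith) (by linarith)
      _ = d := Real.rpow_one _
  set V : ℝ := (K / d) ^ l / Q with hV
  have hV0 : 0 < V := by positivity
  have h1 : 8 * (2 * ((k : ℝ) * k)) * R * d * ((d : ℝ) ^ k * (K / d) ^ l) / Q + (d : ℝ) ^ k * (K / d) ^ k ≤
      (400 * R * d + 1) * t₁ ^ 2 * (2 * a * d) * V := by
    have e1 : 8 * (2 * ((k : ℝ) * k)) * R * d * ((d : ℝ) ^ k * (K / d) ^ l) / Q =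
        8 * (2 * ((k : ℝ) * k)) * R * d * (d : ℝ) ^ k * V := by rw [hV]; ring
    rw [e1]
    have e2 : (d : ℝ) ^ k * (K / d) ^ k ≤ (d : ℝ) ^ k * V := mul_le_mul_of_nonneg_left hkl (by positivity)
    have e3 : 8 * (2 * ((k : ℝ) * k)) * R * d + 1 ≤ (400 * R * d + 1) * t₁ ^ 2 := by
      have e4 : 8 * (2 * ((k : ℝ) * k)) * R * d ≤ 8 * (2 * (25 * t₁ ^ 2)) * R * d := by
        apply mul_le_mul_of_nonneg_right _ hd0.le
        apply mul_le_mul_of_nonneg_right _ hR0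
        linarith
      have e5 : 1 ≤ t₁ ^ 2 := by nlinarith
      nlinarith
    calc 8 * (2 * ((k : ℝ) * k)) * R * d * (d : ℝ) ^ k * V + (d : ℝ) ^ k * (K / d) ^ k
        ≤ 8 * (2 * ((k : ℝ) * k)) * R * d * (d : ℝ) ^ k * V + (d : ℝ) ^ k * V := by linarith
      _ = (8 * (2 * ((k : ℝ) * k)) * R * d + 1) * (d : ℝ) ^ k * V := by ring
      _ ≤ ((400 * R * d + 1) * t₁ ^ 2) * (2 * a * d) * V := by
          apply mul_le_mul_of_nonneg_right _ hV0.le
          exact mul_le_mul e3 hkA (by positivity) (by positivity)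
  have h2 : (2 * ((k : ℝ) * k) + 1) ^ (d + 1) ≤ (51 * t₁ ^ 2) ^ (d + 1) := by
    apply pow_le_pow_left₀ (by positivity)
    have e5 : 1 ≤ t₁ ^ 2 := by nlinarith
    linarith
  have hmain : (k : ℝ) * (A * ((2 * ((k : ℝ) * k) + 1) ^ (d + 1) *
      (8 * (2 * ((k : ℝ) * k)) * R * d * ((d : ℝ) ^ k * (K / d) ^ l) / Q + (d : ℝ) ^ k * (K / d) ^ k)))
      ≤ CstV d R A * t₁ ^ (2 * d + 5) * y ^ (-(1 - η)) * (2 * a) / Q := by
    calc (k : ℝ) * (A * ((2 * ((k : ℝ) * k) + 1) ^ (d + 1) *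
          (8 * (2 * ((k : ℝ) * k)) * R * d * ((d : ℝ) ^ k * (K / d) ^ l) / Q + (d : ℝ) ^ k * (K / d) ^ k)))
          ≤ (5 * t₁) * (A * ((51 * t₁ ^ 2) ^ (d + 1) *
            ((400 * R * d + 1) * t₁ ^ 2 * (2 * a * d) * V))) := by
            apply mul_le_mul hkt _ (by positivity) (by positivity)
            apply mul_le_mul_of_nonneg_left _ (by positivity)
            exact mul_le_mul h2 h1 (by positivity) (by positivity)
        _ = (A * d * (5 * 51 ^ (d + 1) * (400 * R * d + 1))) * t₁ ^ (2 * d + 5) *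
            (K / d) ^ l * (2 * a) / Q := by
            rw [hV, mul_pow, ← pow_mul]
            have e : t₁ ^ (2 * d + 5) = t₁ * t₁ ^ (2 * (d + 1)) * t₁ ^ 2 := by
              rw [← pow_succ', ← pow_add]; congr 1
            rw [e]
            ring
        _ ≤ (A * d * (5 * 51 ^ (d + 1) * (400 * R * d + 1))) * t₁ ^ (2 * d + 5) *
            (d * y ^ (-(1 - η))) * (2 * a) / Q := by
            apply div_le_div_of_nonneg_right _ hQR.le
            apply mul_le_mul_of_nonneg_right _ (by positivity)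
            exact mul_le_mul_of_nonneg_left hly (by positivity)
        _ = CstV d R A * t₁ ^ (2 * d + 5) * y ^ (-(1 - η)) * (2 * a) / Q := by
            unfold CstV; ring
  refine (mul_le_mul_of_nonneg_left hmain hκp.le).trans (le_of_eq ?_)
  ring

/-- all scales; `G` is a property of `κ` which ensures the bound for the stuck sets -/
theorem pb_allV (h₁ : Adm d m r) {τ A η : ℝ}
    (hA : 0 ≤ A) (hτ : τ ≤ 1) (hη0 : 0 ≤ η) (hη1 : η < 1)
    {c : ℝ} (hc0 : 0 < c) (hc : c < 1 - η) : ∃ K : ℝ, 0 < K ∧ ∃ Y₀ : ℝ, 2 ≤ Y₀ ∧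
    ∀ κ : ℤ, κ ≠ 0 → IsCoprime κ (PP d m : ℤ) → Adm d m (kr κ r) →
    (∀ i : ℕ, 1 ≤ i → ((SjU κ d m r τ i).card : ℝ) ≤ |(κ : ℝ)| * (A * ((d : ℝ) ^ η) ^ i)) →
    ∀ y : ℝ, Y₀ ≤ y → ∀ a : ℝ, 0 < a →
      PB (Sy d m (kr κ r) (|(κ : ℝ)| * y)) (|(κ : ℝ)| * a) 1 (K * y ^ (-c)) := by
  classical
  have hd2 := h₁.two_le
  have hdR : (2 : ℝ) ≤ d := by exact_mod_cast hd2
  have hd0 : (0 : ℝ) < d := by linarith
  have hη' : 0 < 1 - η := by linarith
  obtain ⟨R, hR0, hR⟩ : ∃ R : ℝ, 0 ≤ R ∧ ∀ i < d, |(r i : ℝ)| ≤ R := by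
    refine ⟨∑ i ∈ range d, |(r i : ℝ)|, sum_nonneg fun _ _ => abs_nonneg _, fun i hi => ?_⟩
    exact Finset.single_le_sum (f := fun i => |(r i : ℝ)|) (fun j _ => abs_nonneg _)
      (mem_range.2 hi)
  have hPR2 : (2 : ℝ) ≤ PP d m := by exact_mod_cast h₁.big
  have hlP : 0 < Real.log (PP d m) := Real.log_pos (by linarith)
  have hP0 : 0 < PP d m := by have := h₁.big; omega
  set γ : ℝ := (1 - η - c) / (2 * d + 6) with hγ
  have hγ0 : 0 < γ := by apply div_pos (by linarith) (by positivity)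
  have hγm : γ * (2 * d + 6) = 1 - η - c := by rw [hγ]; field_simp
  have hγ10 : γ * 10 ≤ 1 := by nlinarith
  obtain ⟨B, hB⟩ := exists_nat_ge (c / γ)
  have hBγ : c ≤ γ * (B + 1 : ℕ) := by
    rw [div_le_iff₀ hγ0] at hB
    push_cast
    nlinarith
  obtain ⟨lo, hi, ν, L₀, C, hνν, hlo, hlh, hhi, hν, hL₀, hC, hst⟩ :=
    stageU h₁ (B + 1) ((1 - η) / (2 * Real.log (PP d m))) (by positivity)
  have hlo1 : lo < 1 := by linarith
  have hhi0 : 0 < hi := hlo.trans_le hlh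
  have hq1 : 1 < (1 / hi) ^ (B + 1) := by
    apply one_lt_pow₀ _ (by omega)
    rw [one_lt_div hhi0]; exact hhi
  set C₁ : ℝ := C / ((1 / hi) ^ (B + 1) - 1) with hC₁
  have hC₁0 : 0 < C₁ := div_pos hC (by linarith)
  have hCst : 0 ≤ CstV d R A := by unfold CstV; positivity
  have e1 : ∀ᶠ y : ℝ in Filter.atTop, max L₀ 1 ≤ y ^ γ :=
    (tendsto_rpow_atTop hγ0).eventually_ge_atTop _
  have e2 : ∀ᶠ y : ℝ in Filter.atTop, ‖Real.log y‖ ≤ (lo / 2) * ‖y ^ γ‖ :=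
    (isLittleO_log_rpow_atTop hγ0).bound (by positivity)
  have e3 : ∀ᶠ y : ℝ in Filter.atTop, 200 * R * d ≤ y ^ ((1 : ℝ) / 2) :=
    (tendsto_rpow_atTop (by norm_num)).eventually_ge_atTop _
  obtain ⟨Y₁, hY₁⟩ := Filter.eventually_atTop.1 ((e1.and e2).and e3)
  refine ⟨CstV d R A + C₁ * (1 / lo) ^ (B + 1) + 1, by positivity, max Y₁ 2, le_max_right _ _, ?_⟩
  intro κ hκ0 hκc h hSt y hyY a ha
  have hκp : 0 < |(κ : ℝ)| := abs_pos.2 (by exact_mod_cast hκ0)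
  have hκn : Nat.Coprime κ.natAbs (PP d m) := by
    have := Int.isCoprime_iff_nat_coprime.1 hκc
    simpa using this
  obtain ⟨⟨h1, h2⟩, h3⟩ := hY₁ y (le_trans (le_max_left _ _) hyY)
  have hy2 : 2 ≤ y := le_trans (le_max_right _ _) hyY
  have hy0 : 0 < y := by linarith
  set t₁ := y ^ γ with ht₁
  have ht1 : 1 ≤ t₁ := le_trans (le_max_right _ _) h1
  have htL : L₀ ≤ t₁ := le_trans (le_max_left _ _) h1
  have ht0 : 0 < t₁ := by linarith
  have hlogy : Real.log y ≤ lo / 2 * t₁ := by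
    rw [Real.norm_eq_abs, Real.norm_eq_abs, abs_of_pos ht0] at h2
    exact (le_abs_self _).trans h2
  have hlogy0 : 0 ≤ Real.log y := Real.log_nonneg (by linarith)
  have hyt : 200 * t₁ ^ 2 * R * d ≤ y := by
    have h4 : t₁ ^ 2 ≤ y ^ ((1 : ℝ) / 2) := by
      rw [ht₁, ← Real.rpow_natCast, ← Real.rpow_mul hy0.le]
      apply Real.rpow_le_rpow_of_exponent_le (by linarith)
      push_cast
      linarith
    have h5 : y ^ ((1 : ℝ) / 2) * y ^ ((1 : ℝ) / 2) = y := by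
      rw [← Real.rpow_add hy0]; norm_num
    calc 200 * t₁ ^ 2 * R * d = (200 * R * d) * t₁ ^ 2 := by ring
      _ ≤ y ^ ((1 : ℝ) / 2) * y ^ ((1 : ℝ) / 2) := mul_le_mul h3 h4 (by positivity) (by positivity)
      _ = y := h5
  have hyc : 0 < y ^ (-c) := Real.rpow_pos_of_pos hy0 _
  have hρ : CstV d R A * t₁ ^ (2 * d + 5) * y ^ (-(1 - η)) ≤ CstV d R A * y ^ (-c) := by
    rw [mul_assoc]
    apply mul_le_mul_of_nonneg_left _ hCst
    rw [ht₁, ← Real.rpow_natCast, ← Real.rpow_mul hy0.le, ← Real.rpow_add hy0]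
    apply Real.rpow_le_rpow_of_exponent_le (by linarith)
    push_cast
    nlinarith
  have hρ0 : 0 ≤ CstV d R A * t₁ ^ (2 * d + 5) * y ^ (-(1 - η)) := by positivity
  set S0 := Sy d m (kr κ r) (|(κ : ℝ)| * y) with hS0
  have hS : ∀ x ∈ S0, |(κ : ℝ)| * y < |(x : ℝ)| := fun x hx => by simpa using hx 0
  have hST : ∀ x ∈ S0, Tm d m (kr κ r) x ∈ S0 := by
    intro x hx k
    have := hx (k + 1)
    rwa [Function.iterate_succ_apply] at this
  have hD0 : 0 ≤ C₁ * (1 / lo) ^ (B + 1) * y ^ (-c) := by positivity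
  have hκa : 0 < |(κ : ℝ)| * a := mul_pos hκp ha
  rcases le_or_gt (2 * a) y with hsm | hbig
  · refine I1_empty hS hκa ?_ 1 (by positivity)
    have := mul_le_mul_of_nonneg_left hsm hκp.le
    linarith
  rcases le_or_gt (Real.log a) t₁ with hcase | hcase
  · have h5 := pb_baseV hκ0 hκn h hR hR0 hA hτ hη0 hη1 hSt (y := y) (t₁ := t₁) (a := a) (by linarith) ht1
      ha hbig.le hcase hyt (Q := 1) one_pos (by simp) (by
        rw [Nat.cast_one]
        apply Real.one_le_rpow _ hη'.le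
        rw [le_div_iff₀ hy0]; linarith)
    refine I1_PB_mono hκa h5 (hρ.trans ?_)
    rw [add_mul, add_mul]
    linarith
  · have h5 := restartU (S := S0) (B := B + 1) (P := PP d m) (lo := lo) (hi := hi) (ν := ν)
      (L₀ := L₀) (C := C) hκp (by omega) hlo hlh hhi hC (hst κ hκ0 hκc h S0 hST) (t₁ := t₁)
      (ρ₀ := CstV d R A * t₁ ^ (2 * d + 5) * y ^ (-(1 - η))) htL ht0 hρ0 (by
        intro a' ha' hl1 hl2
        have hly : Real.log y ≤ Real.log a' / 2 := by linarith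
        have hla0 : 0 ≤ Real.log a' := by linarith
        apply pb_baseV hκ0 hκn h hR hR0 hA hτ hη0 hη1 hSt (by linarith) ht1 ha' _ hl2 hyt (pow_pos hP0 _)
          (hκn.pow_right _)
        · rw [← Real.log_le_log_iff (by positivity) (by positivity)]
          rw [Nat.cast_pow, Real.log_pow, Real.log_rpow (by positivity), Real.log_div (by positivity)
            hy0.ne', Real.log_mul (by norm_num) ha'.ne']
          have hfl : (⌊ν * Real.log a'⌋₊ : ℝ) ≤ ν * Real.log a' := Nat.floor_le (by positivity)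
          have hl2p : 0 < Real.log 2 := Real.log_pos (by norm_num)
          calc (⌊ν * Real.log a'⌋₊ : ℝ) * Real.log (PP d m) ≤ ν * Real.log a' * Real.log (PP d m) :=
                mul_le_mul_of_nonneg_right hfl hlP.le
            _ ≤ (1 - η) / (2 * Real.log (PP d m)) * Real.log a' * Real.log (PP d m) := by
                apply mul_le_mul_of_nonneg_right _ hlP.le
                exact mul_le_mul_of_nonneg_right hνν hla0
            _ = (1 - η) * (Real.log a' / 2) := by field_simp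
            _ ≤ (1 - η) * (Real.log 2 + Real.log a' - Real.log y) := by
                apply mul_le_mul_of_nonneg_left _ hη'.le
                linarith
        · have : Real.log y ≤ Real.log a' := by linarith
          have := (Real.log_le_log_iff hy0 ha').1 this
          linarith) a ha (by nlinarith)
    have h6 := PB.coarse hκa (pow_pos hP0 _) (one_dvd _) h5
    refine I1_PB_mono hκa h6 ?_
    rw [add_mul, add_mul]
    have h7 : C₁ * (1 / (lo * t₁)) ^ (B + 1) ≤ C₁ * (1 / lo) ^ (B + 1) * y ^ (-c) := by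
      have e4 : (1 / (lo * t₁)) ^ (B + 1) = (1 / lo) ^ (B + 1) * (1 / t₁) ^ (B + 1) := by
        rw [← mul_pow]; congr 1; field_simp
      rw [e4, ← mul_assoc]
      apply mul_le_mul_of_nonneg_left _ (by positivity)
      rw [one_div, inv_pow, ht₁, ← Real.rpow_natCast, ← Real.rpow_mul hy0.le, ← Real.rpow_neg hy0.le]
      apply Real.rpow_le_rpow_of_exponent_le (by linarith)
      linarith
    linarith

/-- THE THEOREM -/
theorem power_savingV (h₁ : Adm d m r) {τ A η : ℝ}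
    (hA : 0 ≤ A) (hτ : τ ≤ 1) (hη0 : 0 ≤ η) (hη1 : η < 1)
    {c : ℝ} (hc0 : 0 < c) (hc : c < 1 - η) : ∃ C : ℝ, 0 < C ∧
    ∀ κ : ℤ, κ ≠ 0 → IsCoprime κ (PP d m : ℤ) → Adm d m (kr κ r) →
    (∀ i : ℕ, 1 ≤ i → ((SjU κ d m r τ i).card : ℝ) ≤ |(κ : ℝ)| * (A * ((d : ℝ) ^ η) ^ i)) →
    ∀ X y : ℝ, 1 ≤ X → 0 < y →
    ({x : ℤ | |(x : ℝ)| ≤ X ∧ ∀ k : ℕ, y < |(((Tm d m (kr κ r))^[k] x : ℤ) : ℝ)|}.ncard : ℝ)
      ≤ C * X * (|(κ : ℝ)| / y) ^ c := by
  obtain ⟨K, hK, Y₀, hY₀, hpb⟩ := pb_allV h₁ hA hτ hη0 hη1 hc0 hc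
  refine ⟨4 * K + 3 * Y₀, by linarith, fun κ hκ0 hκc h hSt X y hX hy0 => ?_⟩
  have hκp : 0 < |(κ : ℝ)| := abs_pos.2 (by exact_mod_cast hκ0)
  have hc1 : c ≤ 1 := by linarith
  set w : ℝ := y / |(κ : ℝ)| with hw
  have hw0 : 0 < w := by positivity
  have hyw : |(κ : ℝ)| * w = y := by rw [hw]; field_simp
  have hinv : |(κ : ℝ)| / y = w⁻¹ := by rw [hw, inv_div]
  rw [hinv, Real.inv_rpow hw0.le, ← div_eq_mul_inv]
  have hyc : 0 < w ^ c := Real.rpow_pos_of_pos hw0 _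
  rcases lt_or_ge w Y₀ with hsm | hbig
  · have h1 := ncard_trivial X hX
      {x : ℤ | |(x : ℝ)| ≤ X ∧ ∀ k : ℕ, y < |(((Tm d m (kr κ r))^[k] x : ℤ) : ℝ)|} (fun x hx => hx.1)
    refine h1.trans ?_
    rw [le_div_iff₀ hyc]
    have h4 : w ^ c ≤ Y₀ := by
      rcases le_or_gt w 1 with hw1 | hw1
      · have := Real.rpow_le_one hw0.le hw1 hc0.le
        linarith
      · calc w ^ c ≤ w ^ (1 : ℝ) := Real.rpow_le_rpow_of_exponent_le hw1.le hc1
          _ = w := Real.rpow_one _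
          _ ≤ Y₀ := hsm.le
    have h5 : 3 * X * w ^ c ≤ 3 * X * Y₀ := mul_le_mul_of_nonneg_left h4 (by linarith)
    nlinarith
  · have hS : ∀ x ∈ Sy d m (kr κ r) y, y < |(x : ℝ)| := fun x hx => by simpa using hx 0
    have hρ0 : 0 ≤ K * w ^ (-c) := by positivity
    obtain ⟨n, hn⟩ := pow_unbounded_of_one_lt (2 * X / y) (show (1 : ℝ) < 2 by norm_num)
    have h1 := I1_sum hS hρ0 (fun a _ ha => by
      have := hpb κ hκ0 hκc h hSt w hbig (a / |(κ : ℝ)|) (by positivity)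
      rw [hyw, mul_div_cancel₀ _ hκp.ne'] at this
      exact this) n (2 * X) (by linarith) (by
      rw [div_lt_iff₀ hy0] at hn
      linarith)
    have hfin1 : {x : ℤ | |(x : ℝ)| ≤ X ∧ ∀ k : ℕ, y < |(((Tm d m (kr κ r))^[k] x : ℤ) : ℝ)|} ⊆
        {x : ℤ | x ∈ Sy d m (kr κ r) y ∧ |(x : ℝ)| < 2 * X} := by
      rintro x ⟨h1, h2⟩
      exact ⟨h2, by linarith⟩
    have h2 := Set.ncard_le_ncard hfin1 (I1_window_finite _ _)
    have h3 : ({x : ℤ | |(x : ℝ)| ≤ X ∧ ∀ k : ℕ, y < |(((Tm d m (kr κ r))^[k] x : ℤ) : ℝ)|}.ncard : ℝ) ≤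
        ({x : ℤ | x ∈ Sy d m (kr κ r) y ∧ |(x : ℝ)| < 2 * X}.ncard : ℝ) := by exact_mod_cast h2
    refine (h3.trans h1).trans ?_
    rw [le_div_iff₀ hyc]
    have h4 : w ^ (-c) * w ^ c = 1 := by rw [← Real.rpow_add hw0, neg_add_cancel, Real.rpow_zero]
    calc 2 * (K * w ^ (-c)) * (2 * X) * w ^ c = 4 * K * X * (w ^ (-c) * w ^ c) := by ring
      _ = 4 * K * X := by rw [h4, mul_one]
      _ ≤ _ := by nlinarith

end Pool.Agent.TH235.UB
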